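import Mathlib

namespace Pool.Agent.Results.MP_e96fbd_an.Sidon

open Complex Finset

/-- the character `χ_x(t) = exp(2πi x t / k)` -/
noncomputable def chi (k : ℕ) (x t : ZMod k) : ℂ :=
  exp (2 * Real.pi * I * ((x.val : ℂ) * (t.val : ℂ)) / k)

/-- the Sidon constant -/
noncomputable def S (k : ℕ) (E : Finset (ZMod k)) : ℝ :=
  sSup {s : ℝ | ∃ a : ZMod k → ℂ, (∀ t, ‖∑ x ∈ E, a x * chi k x t‖ ≤ 1) ∧ s = ∑ x ∈ E, ‖a x‖}

def Extreme (k : ℕ) (E : Finset (ZMod k)) : Prop := S k E = √(E.card : ℝ)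

def Equivalent (k : ℕ) (E F : Finset (ZMod k)) : Prop :=
  ∃ (u : (ZMod k)ˣ) (c : ZMod k), F = E.image fun x => (u : ZMod k) * x + c

noncomputable def w : ℂ := exp (2 * Real.pi * I / 16)

lemma chi_eq (x t : ZMod 16) : chi 16 x t = w ^ (x.val * t.val) := by
  unfold chi w
  rw [← exp_nat_mul]; congr 1; push_cast; ring

lemma w4 : w ^ 4 = I := by
  unfold w
  rw [← exp_nat_mul]
  refine Eq.trans ?_ exp_pi_div_two_mul_I
  congr 1; push_cast; ring

lemma w8 : w ^ 8 = -1 := by
  rw [show 8 = 4 * 2 from rfl, pow_mul, w4, I_sq]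

lemma nw : ‖w‖ = 1 := by
  have : ‖w‖ ^ 4 = 1 := by rw [← norm_pow, w4, norm_I]
  exact (pow_eq_one_iff_of_nonneg (norm_nonneg _) (by norm_num)).1 this

lemma four (u v : ℂ) (h0 : ‖u + v‖ ≤ 1) (h1 : ‖u + I * v‖ ≤ 1) (h2 : ‖u + -v‖ ≤ 1)
    (h3 : ‖u + -I * v‖ ≤ 1) : √2 * ‖u‖ + ‖v‖ ≤ √2 := by
  have sq : ∀ z : ℂ, ‖z‖ ≤ 1 → z.re ^ 2 + z.im ^ 2 ≤ 1 := fun z h => by
    have := Complex.sq_norm z
    rw [normSq_apply] at this
    nlinarith [norm_nonneg z]
  have a0 := sq _ h0
  have a1 := sq _ h1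
  have a2 := sq _ h2
  have a3 := sq _ h3
  simp at a0 a1 a2 a3
  have hu := Complex.sq_norm u
  have hv := Complex.sq_norm v
  rw [normSq_apply] at hu hv
  set p := u.re * v.re + u.im * v.im
  set q := u.im * v.re - u.re * v.im
  set a := ‖u‖
  set b := ‖v‖
  have ha : 0 ≤ a := norm_nonneg _
  have hb : 0 ≤ b := norm_nonneg _
  have hpq : p ^ 2 + q ^ 2 = (a * b) ^ 2 := by rw [mul_pow, hu, hv]; simp only [p, q]; ring
  set m := (1 - a ^ 2 - b ^ 2) / 2
  have p1 : |p| ≤ m := abs_le.2 ⟨by simp only [m, p]; nlinarith, by simp only [m, p]; nlinarith⟩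
  have q1 : |q| ≤ m := abs_le.2 ⟨by simp only [m, q]; nlinarith, by simp only [m, q]; nlinarith⟩
  have m0 : 0 ≤ m := (abs_nonneg _).trans p1
  have s2 : √2 ^ 2 = 2 := Real.sq_sqrt (by norm_num)
  have s0 : 0 < √2 := by positivity
  have hab : a * b ≤ √2 * m := by
    refine (pow_le_pow_iff_left₀ (by positivity) (by positivity) two_ne_zero).1 ?_
    · have := sq_le_sq' (abs_le.1 p1).1 (abs_le.1 p1).2
      have := sq_le_sq' (abs_le.1 q1).1 (abs_le.1 q1).2
      rw [mul_pow √2, s2]; linarith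
  refine (pow_le_pow_iff_left₀ (by positivity) s0.le two_ne_zero).1 ?_
  have : √2 * (a * b) ≤ √2 * (√2 * m) := by gcongr
  have e : √2 * (√2 * m) = 2 * m := by rw [← mul_assoc, ← pow_two, s2]
  have : (√2 * a + b) ^ 2 = 2 * a ^ 2 + 2 * (√2 * (a * b)) + b ^ 2 := by
    rw [add_sq, mul_pow, s2]; ring
  simp only [m] at *
  nlinarith

lemma par (a b : ℂ) : ‖a‖ + ‖b‖ ≤ √2 * ‖a + b‖ ∨ ‖a‖ + ‖b‖ ≤ √2 * ‖a - b‖ := by
  have h := parallelogram_law_with_norm ℂ a b
  have s2 : √2 ^ 2 = 2 := Real.sq_sqrt (by norm_num)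
  rcases le_total ‖a + b‖ ‖a - b‖ with h1 | h1
  · right
    refine (pow_le_pow_iff_left₀ (by positivity) (by positivity) two_ne_zero).1 ?_
    rw [mul_pow, s2]
    nlinarith [norm_nonneg (a + b), sq_nonneg (‖a‖ - ‖b‖)]
  · left
    refine (pow_le_pow_iff_left₀ (by positivity) (by positivity) two_ne_zero).1 ?_
    rw [mul_pow, s2]
    nlinarith [norm_nonneg (a - b), sq_nonneg (‖a‖ - ‖b‖)]

lemma sup_eq (b : ZMod 16) (hb0 : b ≠ 0) (hb8 : b ≠ 8)
    (hup : ∀ a : ZMod 16 → ℂ,
      (∀ t : ZMod 16, ‖a 0 + (a 8 * w ^ (8 * t.val) + a b * w ^ (b.val * t.val))‖ ≤ 1) →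
      ‖a 0‖ + (‖a 8‖ + ‖a b‖) ≤ √2) : S 16 {0, 8, b} = √2 := by
  have n1 : (0 : ZMod 16) ∉ ({8, b} : Finset (ZMod 16)) := by
    simp only [mem_insert, mem_singleton, not_or]; exact ⟨by decide, hb0.symm⟩
  have n2 : (8 : ZMod 16) ∉ ({b} : Finset (ZMod 16)) := by simpa using hb8.symm
  have v8 : (8 : ZMod 16).val = 8 := rfl
  apply IsGreatest.csSup_eq
  constructor
  · have s0 : (0 : ℝ) < √2 := by positivity
    refine ⟨fun x => if x = 0 then 1 / √2 else if x = 8 then I / √2 else 0, fun t => ?_, ?_⟩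
    · rw [sum_insert n1, sum_insert n2, sum_singleton]
      simp only [chi_eq, v8, if_true, hb0, hb8, if_false, show (8 : ZMod 16) ≠ 0 by decide,
        ZMod.val_zero, zero_mul, pow_zero, mul_one, add_zero, pow_mul, w8]
      have : ∀ s : ℝ, s ^ 2 = 1 → ‖(1 / √2 : ℂ) + I / √2 * s‖ ≤ 1 := by
        intro s hs
        have : (1 / √2 : ℂ) + I / √2 * s = (1 + s * I) / √2 := by ring
        rw [this, norm_div, norm_real, Real.norm_eq_abs, abs_of_pos s0, div_le_one s0]
        have := norm_add_mul_I 1 s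
        simp only [ofReal_one] at this
        rw [this, hs]; norm_num
      have := this ((-1) ^ t.val) (by rw [← pow_mul, mul_comm, pow_mul]; simp)
      simpa using this
    · rw [sum_insert n1, sum_insert n2, sum_singleton]
      simp only [if_true, hb0, hb8, if_false, show (8 : ZMod 16) ≠ 0 by decide, norm_div,
        norm_one, norm_I, norm_zero, norm_real, Real.norm_eq_abs, abs_of_pos s0]
      field_simp
      rw [Real.sq_sqrt (by norm_num)]; norm_num
  · rintro s ⟨a, ha, rfl⟩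
    rw [sum_insert n1, sum_insert n2, sum_singleton]
    apply hup
    intro t
    have := ha t
    rw [sum_insert n1, sum_insert n2, sum_singleton] at this
    simpa only [chi_eq, v8, ZMod.val_zero, zero_mul, pow_zero, mul_one] using this

lemma wp (n : ℕ) : w ^ n = I ^ (n / 4) * w ^ (n % 4) := by
  rw [← w4, ← pow_mul, ← pow_add, Nat.div_add_mod]

lemma SE : S 16 {0, 8, 1} = √2 := by
  apply sup_eq 1 (by decide) (by decide)
  intro a h
  rcases par (a 0) (a 8) with hp | hp
  · have h0 := h 0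
    have h1 := h 4
    have h2 := h 8
    have h3 := h 12
    simp only [show (1 : ZMod 16).val = 1 from rfl, show (0 : ZMod 16).val = 0 from rfl,
      show (4 : ZMod 16).val = 4 from rfl, show (8 : ZMod 16).val = 8 from rfl,
      show (12 : ZMod 16).val = 12 from rfl, pow_mul, w8, pow_one] at h0 h1 h2 h3
    rw [wp 12] at h3
    rw [w4] at h1
    have := four (a 0 + a 8) (a 1) (by convert h0 using 2; ring) (by convert h1 using 2; ring)
      (by convert h2 using 2; ring) (by convert h3 using 2; simp [pow_succ]; ring)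
    linarith
  · have h0 := h 1
    have h1 := h 5
    have h2 := h 9
    have h3 := h 13
    simp only [show (1 : ZMod 16).val = 1 from rfl, show (5 : ZMod 16).val = 5 from rfl,
      show (9 : ZMod 16).val = 9 from rfl,
      show (13 : ZMod 16).val = 13 from rfl, pow_mul, w8, pow_one] at h0 h1 h2 h3
    rw [wp 13] at h3
    rw [wp 9] at h2
    rw [wp 5] at h1
    have := four (a 0 - a 8) (a 1 * w) (by convert h0 using 2; ring)
      (by convert h1 using 2; simp; ring)
      (by convert h2 using 2; simp; ring) (by convert h3 using 2; simp [pow_succ]; ring)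
    rw [norm_mul, nw] at this
    linarith

lemma SF : S 16 {0, 8, 2} = √2 := by
  apply sup_eq 2 (by decide) (by decide)
  intro a h
  simp only [pow_mul w 8, w8] at h
  rcases par (a 0) (a 8) with hp | hp
  · have h0 := h 0
    have h1 := h 2
    have h2 := h 4
    have h3 := h 6
    simp only [show (2 : ZMod 16).val = 2 from rfl, show (0 : ZMod 16).val = 0 from rfl,
      show (4 : ZMod 16).val = 4 from rfl, show (6 : ZMod 16).val = 6 from rfl,
      w8, Nat.reduceMul] at h0 h1 h2 h3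
    rw [wp 12] at h3
    rw [w4] at h1
    have := four (a 0 + a 8) (a 2) (by convert h0 using 2; ring) (by convert h1 using 2; ring)
      (by convert h2 using 2; ring) (by convert h3 using 2; simp [pow_succ]; ring)
    linarith
  · have h0 := h 1
    have h1 := h 3
    have h2 := h 5
    have h3 := h 7
    simp only [show (1 : ZMod 16).val = 1 from rfl, show (5 : ZMod 16).val = 5 from rfl,
      show (3 : ZMod 16).val = 3 from rfl, show (2 : ZMod 16).val = 2 from rfl,
      show (7 : ZMod 16).val = 7 from rfl, w8, Nat.reduceMul] at h0 h1 h2 h3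
    rw [wp 14] at h3
    rw [wp 10] at h2
    rw [wp 6] at h1
    have := four (a 0 - a 8) (a 2 * w ^ 2) (by convert h0 using 2; ring)
      (by convert h1 using 2; simp; ring)
      (by convert h2 using 2; simp; ring) (by convert h3 using 2; simp [pow_succ]; ring)
    rw [norm_mul, norm_pow, nw] at this
    linarith

theorem result : ∃ (k : ℕ) (_ : 1 ≤ k) (E F : Finset (ZMod k)), E.Nonempty ∧ F.Nonempty ∧
    E.card = F.card ∧ S k E = S k F ∧ ¬ Equivalent k E F ∧ ¬ Extreme k E ∧ ¬ Extreme k F := by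
  have h23 : √2 ≠ √((3 : ℕ) : ℝ) := by
    intro h
    have := (Real.sqrt_inj (by norm_num) (by norm_num)).1 h
    norm_num at this
  refine ⟨16, by norm_num, {0, 8, 1}, {0, 8, 2}, by simp, by simp, by decide, by rw [SE, SF], ?_,
    ?_, ?_⟩
  · rintro ⟨u, c, h⟩
    have : ∀ u v c : ZMod 16, u * v = 1 →
        ({0, 8, 2} : Finset (ZMod 16)) ≠ ({0, 8, 1} : Finset (ZMod 16)).image fun x => u * x + c := by
      decide +kernel
    exact this u (u⁻¹ : (ZMod 16)ˣ) c u.mul_inv h
  · unfold Extreme; rw [SE, show ({0, 8, 1} : Finset (ZMod 16)).card = 3 by decide]; exact h23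
  · unfold Extreme; rw [SF, show ({0, 8, 2} : Finset (ZMod 16)).card = 3 by decide]; exact h23

end Pool.Agent.Results.MP_e96fbd_an.Sidon
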